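import Pool.Agent.Helper40.K3S.Defs

/-!
A checker for branch and bound certificates and its soundness.
-/

set_option autoImplicit false

namespace K3S

open Finset

/-! ### counting -/

theorem c2_eq (m : ℕ) : c2 m = m.choose 2 := by
  unfold c2
  rw [Nat.choose_two_right]

theorem c3_eq (m : ℕ) : c3 m = m.choose 3 := by
  unfold c3
  rw [Nat.choose_eq_descFactorial_div_factorial]
  have h : m.descFactorial 3 = m * (m - 1) * (m - 2) := by
    simp [Nat.descFactorial]
    ring
  rw [h]
  rfl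

theorem c2_succ (m : ℕ) : c2 (m + 1) = c2 m + m := by
  rw [c2_eq, c2_eq, Nat.choose_succ_succ' m 1, Nat.choose_one_right]
  ring

theorem c3_succ (m : ℕ) : c3 (m + 1) = c3 m + c2 m := by
  rw [c3_eq, c3_eq, c2_eq, Nat.choose_succ_succ' m 2]
  ring

theorem c2_mono {a b : ℕ} (h : a ≤ b) : c2 a ≤ c2 b := by
  rw [c2_eq, c2_eq]
  exact Nat.choose_le_choose 2 h

theorem c3_mono {a b : ℕ} (h : a ≤ b) : c3 a ≤ c3 b := by
  rw [c3_eq, c3_eq]
  exact Nat.choose_le_choose 3 h

theorem mem_trip {n : ℕ} {S : ℕ × ℕ × ℕ} :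
    S ∈ trip n ↔ S.1 < S.2.1 ∧ S.2.1 < S.2.2 ∧ S.2.2 < n := by
  unfold trip
  simp only [mem_filter, mem_product, mem_range]
  constructor
  · rintro ⟨⟨_, _, h3⟩, h4, h5⟩
    exact ⟨h4, h5, h3⟩
  · rintro ⟨h4, h5, h3⟩
    exact ⟨⟨by omega, by omega, h3⟩, h4, h5⟩

/-- pairs `i < j < m` with `a ≤ i`, `b ≤ j` -/
def Pn (m a b : ℕ) : Finset (ℕ × ℕ) :=
  (range m ×ˢ range m).filter (fun P => P.1 < P.2 ∧ a ≤ P.1 ∧ b ≤ P.2)

theorem mem_Pn {m a b : ℕ} {P : ℕ × ℕ} : P ∈ Pn m a b ↔
    P.1 < P.2 ∧ P.2 < m ∧ a ≤ P.1 ∧ b ≤ P.2 := by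
  unfold Pn
  simp only [mem_filter, mem_product, mem_range]
  constructor
  · rintro ⟨⟨_, h3⟩, h4, h5, h6⟩
    exact ⟨h4, h3, h5, h6⟩
  · rintro ⟨h4, h3, h5, h6⟩
    exact ⟨⟨by omega, h3⟩, h4, h5, h6⟩

theorem card_Pn {m a b : ℕ} (hab : a < b) (hbm : b ≤ m) :
    (Pn m a b).card + c2 (b - a) = c2 (m - a) := by
  induction m, hbm using Nat.le_induction with
  | base =>
    have : Pn b a b = ∅ := by
      ext P
      simp only [mem_Pn, notMem_empty, iff_false]
      omega
    rw [this]
    simp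
  | succ m hm ih =>
    have h1 : Pn (m + 1) a b = Pn m a b ∪ (Ico a m).image (fun i => (i, m)) := by
      ext ⟨i, j⟩
      simp only [mem_Pn, mem_union, mem_image, mem_Ico, Prod.mk.injEq]
      constructor
      · rintro ⟨h1, h2, h3, h4⟩
        by_cases hj : j < m
        · exact Or.inl ⟨h1, hj, h3, h4⟩
        · exact Or.inr ⟨i, ⟨h3, by omega⟩, rfl, by omega⟩
      · rintro (⟨h1, h2, h3, h4⟩ | ⟨i', ⟨h1, h2⟩, rfl, rfl⟩)
        · exact ⟨h1, by omega, h3, h4⟩
        · exact ⟨h2, by omega, h1, hm⟩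
    have h2 : Disjoint (Pn m a b) ((Ico a m).image (fun i => (i, m))) := by
      rw [Finset.disjoint_left]
      rintro ⟨i, j⟩ h3 h4
      simp only [mem_Pn, mem_image, mem_Ico, Prod.mk.injEq] at h3 h4
      obtain ⟨i', _, _, rfl⟩ := h4
      omega
    rw [h1, card_union_of_disjoint h2, card_image_of_injective _ (fun i j h => by
      simpa using h), Nat.card_Ico]
    have h3 : m + 1 - a = (m - a) + 1 := by omega
    rw [h3, c2_succ]
    omega

theorem mem_Dn {n a b c : ℕ} {S : ℕ × ℕ × ℕ} : S ∈ Dn n a b c ↔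
    (S.1 < S.2.1 ∧ S.2.1 < S.2.2 ∧ S.2.2 < n) ∧ a ≤ S.1 ∧ b ≤ S.2.1 ∧ c ≤ S.2.2 := by
  unfold Dn
  rw [mem_filter, mem_trip]

theorem card_Dn_aux {n a b c : ℕ} (hab : a < b) (hbc : b < c) (hcn : c ≤ n) :
    (Dn n a b c).card + c3 (c - a) + (n - c) * c2 (b - a) = c3 (n - a) := by
  induction n, hcn using Nat.le_induction with
  | base =>
    have : Dn c a b c = ∅ := by
      ext S
      simp only [mem_Dn, notMem_empty, iff_false]
      omega
    rw [this]
    simp
  | succ n hn ih =>
    have h1 : Dn (n + 1) a b c = Dn n a b c ∪ (Pn n a b).image (fun P => (P.1, P.2, n)) := by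
      ext ⟨i, j, k⟩
      simp only [mem_Dn, mem_union, mem_image, mem_Pn, Prod.mk.injEq]
      constructor
      · rintro ⟨⟨h1, h2, h3⟩, h4, h5, h6⟩
        by_cases hk : k < n
        · exact Or.inl ⟨⟨h1, h2, hk⟩, h4, h5, h6⟩
        · exact Or.inr ⟨(i, j), ⟨h1, by omega, h4, h5⟩, rfl, rfl, by omega⟩
      · rintro (⟨⟨h1, h2, h3⟩, h4, h5, h6⟩ | ⟨⟨i', j'⟩, ⟨h1, h2, h3, h4⟩, rfl, rfl, rfl⟩)
        · exact ⟨⟨h1, h2, by omega⟩, h4, h5, h6⟩
        · exact ⟨⟨h1, h2, by omega⟩, h3, h4, by omega⟩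
    have h2 : Disjoint (Dn n a b c) ((Pn n a b).image (fun P => (P.1, P.2, n))) := by
      rw [Finset.disjoint_left]
      rintro ⟨i, j, k⟩ h3 h4
      simp only [mem_Dn, mem_image, Prod.mk.injEq] at h3 h4
      obtain ⟨P, _, _, _, rfl⟩ := h4
      omega
    have hinj : Function.Injective (fun P : ℕ × ℕ => (P.1, P.2, n)) := by
      rintro ⟨i, j⟩ ⟨i', j'⟩ h
      simp only [Prod.mk.injEq] at h
      simp [h.1, h.2.1]
    rw [h1, card_union_of_disjoint h2, card_image_of_injective _ hinj]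
    have h3 : n + 1 - a = (n - a) + 1 := by omega
    have h4 : n + 1 - c = (n - c) + 1 := by omega
    have h5 := card_Pn (m := n) hab (by omega)
    rw [h3, c3_succ, h4, Nat.add_mul, one_mul]
    omega

theorem card_Dn {n a b c : ℕ} (hab : a < b) (hbc : b < c) (hcn : c ≤ n) :
    (Dn n a b c).card = size n a b c := by
  have := card_Dn_aux hab hbc hcn
  unfold size
  omega

/-! ### unions of dominated sets -/

/-- the set dominated by a triple -/
def DD (n : ℕ) (S : ℕ × ℕ × ℕ) : Finset (ℕ × ℕ × ℕ) := Dn n S.1 S.2.1 S.2.2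

/-- the size formula for a triple -/
def sz (n : ℕ) (S : ℕ × ℕ × ℕ) : ℕ := size n S.1 S.2.1 S.2.2

/-- validity of a triple -/
def Val (n : ℕ) (S : ℕ × ℕ × ℕ) : Prop := S.1 < S.2.1 ∧ S.2.1 < S.2.2 ∧ S.2.2 ≤ n

theorem card_DD {n : ℕ} {S : ℕ × ℕ × ℕ} (h : Val n S) : (DD n S).card = sz n S :=
  card_Dn h.1 h.2.1 h.2.2

/-- componentwise maximum -/
def meet (S T : ℕ × ℕ × ℕ) : ℕ × ℕ × ℕ := (max S.1 T.1, max S.2.1 T.2.1, max S.2.2 T.2.2)

theorem Val.meet {n : ℕ} {S T : ℕ × ℕ × ℕ} (hS : Val n S) (hT : Val n T) :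
    Val n (meet S T) := by
  obtain ⟨h1, h2, h3⟩ := hS
  obtain ⟨h4, h5, h6⟩ := hT
  unfold Val K3S.meet
  simp only
  omega

theorem DD_meet (n : ℕ) (S T : ℕ × ℕ × ℕ) : DD n S ∩ DD n T = DD n (meet S T) := by
  ext U
  simp only [DD, mem_inter, mem_Dn, meet]
  omega

/-- union of dominated sets -/
def UU (n : ℕ) : List (ℕ × ℕ × ℕ) → Finset (ℕ × ℕ × ℕ)
  | [] => ∅
  | S :: L => DD n S ∪ UU n L

/-- size of `DD n M ∩ UU n L` -/
def aux (n : ℕ) : List (ℕ × ℕ × ℕ) → ℕ × ℕ × ℕ → ℕ
  | [], _ => 0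
  | S :: L, M => sz n (meet M S) + aux n L M - aux n L (meet M S)

theorem aux_eq {n : ℕ} {L : List (ℕ × ℕ × ℕ)} (hL : ∀ S ∈ L, Val n S) :
    ∀ M : ℕ × ℕ × ℕ, Val n M → aux n L M = (DD n M ∩ UU n L).card := by
  induction L with
  | nil => intro M _; simp [aux, UU]
  | cons S L ih =>
    intro M hM
    have hS := hL S (by simp)
    have ih' := ih (fun T hT => hL T (by simp [hT]))
    have hMS := hM.meet hS
    have h1 : DD n M ∩ UU n (S :: L) = DD n (meet M S) ∪ (DD n M ∩ UU n L) := by
      rw [UU, inter_union_distrib_left, DD_meet]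
    have h2 : DD n (meet M S) ∩ (DD n M ∩ UU n L) = DD n (meet M S) ∩ UU n L := by
      rw [← inter_assoc, ← DD_meet]
      congr 1
      ext U
      simp only [mem_inter]
      tauto
    have h3 := card_union_add_card_inter (DD n (meet M S)) (DD n M ∩ UU n L)
    rw [h2, card_DD hMS] at h3
    rw [h1, aux, ih' M hM, ih' _ hMS]
    omega

/-! ### nonlethal and lethal triples -/

variable {g : ℕ → ℝ}

/-- dose of a triple -/
noncomputable def ds (g : ℕ → ℝ) (S : ℕ × ℕ × ℕ) : ℝ := g S.1 + g S.2.1 + g S.2.2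

theorem DD_sub_NL (hg : Antitone g) {n : ℕ} {S : ℕ × ℕ × ℕ} (h : ds g S < 1) :
    DD n S ⊆ NL g n := by
  intro T hT
  unfold DD at hT
  rw [mem_Dn] at hT
  unfold NL
  rw [mem_filter, mem_trip]
  refine ⟨hT.1, ?_⟩
  have h1 := hg hT.2.1
  have h2 := hg hT.2.2.1
  have h3 := hg hT.2.2.2
  unfold ds at h
  linarith

theorem UU_sub_NL (hg : Antitone g) {n : ℕ} {L : List (ℕ × ℕ × ℕ)} (h : ∀ S ∈ L, ds g S < 1) :
    UU n L ⊆ NL g n := by
  induction L with
  | nil => simp [UU]
  | cons S L ih =>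
    rw [UU]
    exact union_subset (DD_sub_NL hg (h S (by simp))) (ih (fun T hT => h T (by simp [hT])))

/-- A triple whose dominated set would bring the count to the target is lethal. -/
theorem forced (hg : Antitone g) {n target cD : ℕ} {D : List (ℕ × ℕ × ℕ)}
    (hDv : ∀ S ∈ D, Val n S) (hD : ∀ S ∈ D, ds g S < 1) (hc : cD = (UU n D).card)
    (hlt : (NL g n).card < target) {S : ℕ × ℕ × ℕ} (hS : Val n S)
    (h : target ≤ cD + sz n S - aux n D S) : 1 ≤ ds g S := by
  by_contra hcon
  push Not at hcon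
  have h1 : DD n S ∪ UU n D ⊆ NL g n := union_subset (DD_sub_NL hg hcon) (UU_sub_NL hg hD)
  have h2 := card_le_card h1
  have h3 := card_union_add_card_inter (DD n S) (UU n D)
  rw [card_DD hS, ← aux_eq hDv S hS, ← hc] at h3
  omega

theorem card_step {n cD : ℕ} {D : List (ℕ × ℕ × ℕ)} (hDv : ∀ S ∈ D, Val n S)
    (hc : cD = (UU n D).card) {S : ℕ × ℕ × ℕ} (hS : Val n S) :
    cD + sz n S - aux n D S = (UU n (S :: D)).card := by
  have h3 := card_union_add_card_inter (DD n S) (UU n D)
  rw [card_DD hS, ← aux_eq hDv S hS, ← hc] at h3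
  rw [UU]
  omega

/-! ### packing -/

/-- prefix check on a list of weights -/
def pre (Q : ℕ) : ℕ → ℕ → List ℕ → Bool
  | _, _, [] => true
  | acc, lim, x :: w => Nat.ble (acc + x) (lim + Q) && pre Q (acc + x) (lim + Q) w

/-- weighted sum of doses from position `i` on -/
noncomputable def dot (g : ℕ → ℝ) : ℕ → List ℕ → ℝ
  | _, [] => 0
  | i, x :: w => x * g i + dot g (i + 1) w

theorem dot_le (hg : Antitone g) (Q : ℕ) (w : List ℕ) : ∀ (i acc lim : ℕ), acc ≤ lim →
    (∀ j, 0 ≤ g j) → pre Q acc lim w = true →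
    dot g i w ≤ Q * ∑ j ∈ range w.length, g (i + j) + ((lim : ℝ) - acc) * g i := by
  induction w with
  | nil =>
    intro i acc lim hle h0 _
    have h1 : (0 : ℝ) ≤ (lim : ℝ) - acc := by
      have : (acc : ℝ) ≤ lim := by exact_mod_cast hle
      linarith
    have h2 := mul_nonneg h1 (h0 i)
    simpa [dot] using h2
  | cons x w ih =>
    intro i acc lim hle h0 hp
    simp only [pre, Bool.and_eq_true] at hp
    have h1 : acc + x ≤ lim + Q := Nat.le_of_ble_eq_true hp.1
    have h2 := ih (i + 1) (acc + x) (lim + Q) h1 h0 hp.2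
    have h3 : g (i + 1) ≤ g i := hg (by omega)
    have h4 : (0 : ℝ) ≤ ((lim + Q : ℕ) : ℝ) - ((acc + x : ℕ) : ℝ) := by
      have : ((acc + x : ℕ) : ℝ) ≤ ((lim + Q : ℕ) : ℝ) := by exact_mod_cast h1
      linarith
    have h5 := mul_le_mul_of_nonneg_left h3 h4
    rw [dot, List.length_cons, sum_range_succ']
    have h6 : ∑ j ∈ range w.length, g (i + (j + 1)) = ∑ j ∈ range w.length, g (i + 1 + j) := by
      apply sum_congr rfl
      intro j _
      congr 1
      ring
    rw [h6, add_zero]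
    push_cast at h2 h5 ⊢
    linarith

/-- add `y` at position `k` -/
def addAt : List ℕ → ℕ → ℕ → List ℕ
  | [], _, _ => []
  | x :: w, 0, y => (x + y) :: w
  | x :: w, k + 1, y => x :: addAt w k y

theorem length_addAt (w : List ℕ) : ∀ (k y : ℕ), (addAt w k y).length = w.length := by
  induction w with
  | nil => intro k y; simp [addAt]
  | cons x w ih =>
    intro k y
    rcases k with _ | k
    · simp [addAt]
    · simp [addAt, ih]

theorem dot_addAt (w : List ℕ) : ∀ (i k y : ℕ), (w.length ≤ k → g (i + k) = 0) →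
    dot g i (addAt w k y) = dot g i w + y * g (i + k) := by
  induction w with
  | nil =>
    intro i k y h
    rw [h (by simp)]
    simp [addAt, dot]
  | cons x w ih =>
    intro i k y h
    rcases k with _ | k
    · simp [addAt, dot]
      ring
    · rw [addAt, dot, dot, ih (i + 1) k y (fun h' => by
        rw [← h (by simp; exact h')]
        congr 1
        ring)]
      have : i + 1 + k = i + (k + 1) := by ring
      rw [this]
      ring

theorem ofDigits_addAt (X : ℕ) (w : List ℕ) : ∀ (k y : ℕ), k < w.length →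
    Nat.ofDigits X (addAt w k y) = Nat.ofDigits X w + y * X ^ k := by
  induction w with
  | nil => intro k y h; simp at h
  | cons x w ih =>
    intro k y h
    rcases k with _ | k
    · simp [addAt, Nat.ofDigits_cons]
      ring
    · rw [addAt, Nat.ofDigits_cons, Nat.ofDigits_cons, ih k y (by simpa using h), pow_succ]
      ring

theorem addAt_of_le (w : List ℕ) : ∀ (k y : ℕ), w.length ≤ k → addAt w k y = w := by
  induction w with
  | nil => intro k y _; simp [addAt]
  | cons x w ih =>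
    intro k y h
    rcases k with _ | k
    · simp at h
    · rw [addAt, ih k y (by simpa using h)]

theorem sum_addAt_le (w : List ℕ) : ∀ (k y : ℕ), (addAt w k y).sum ≤ w.sum + y := by
  induction w with
  | nil => intro k y; simp [addAt]
  | cons x w ih =>
    intro k y
    rcases k with _ | k
    · simp [addAt]
      omega
    · rw [addAt, List.sum_cons, List.sum_cons]
      have := ih k y
      omega

/-- prefix check on the digits of a number -/
def preD (X Q : ℕ) : ℕ → ℕ → ℕ → ℕ → Bool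
  | 0, _, _, _ => true
  | len + 1, acc, lim, W =>
    Nat.ble (acc + W % X) (lim + Q) && preD X Q len (acc + W % X) (lim + Q) (W / X)

theorem preD_eq (X Q : ℕ) (w : List ℕ) : ∀ (acc lim : ℕ), (∀ x ∈ w, x < X) →
    preD X Q w.length acc lim (Nat.ofDigits X w) = pre Q acc lim w := by
  induction w with
  | nil => intro acc lim _; simp [preD, pre]
  | cons x w ih =>
    intro acc lim h
    have hx : x < X := h x (by simp)
    have hX : 0 < X := by omega
    rw [List.length_cons, preD, pre, Nat.ofDigits_cons]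
    have h1 : (x + X * Nat.ofDigits X w) % X = x := by
      rw [Nat.add_mul_mod_self_left, Nat.mod_eq_of_lt hx]
    have h2 : (x + X * Nat.ofDigits X w) / X = Nat.ofDigits X w := by
      rw [Nat.add_mul_div_left _ _ hX, Nat.div_eq_of_lt hx, zero_add]
    rw [h1, h2, ih _ _ (fun y hy => h y (by simp [hy]))]

/-! ### leaves -/

/-- entries `(a, b, c, y)` -/
abbrev Col := ℕ × ℕ × ℕ × ℕ

/-- one term of the sum of weights -/
def pw (X N k : ℕ) : ℕ := if Nat.blt k N then X ^ k else 0

/-- the digits of the sum of weights -/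
def wsum (X N : ℕ) : List Col → ℕ
  | [] => 0
  | C :: l => C.2.2.2 * (pw X N C.1 + pw X N C.2.1 + pw X N C.2.2.1) + wsum X N l

/-- total weight -/
def ysum : List Col → ℕ
  | [] => 0
  | C :: l => C.2.2.2 + ysum l

/-- the list of weights (not computed by the checker) -/
def wlist (N : ℕ) : List Col → List ℕ
  | [] => List.replicate N 0
  | C :: l => addAt (addAt (addAt (wlist N l) C.1 C.2.2.2) C.2.1 C.2.2.2) C.2.2.1 C.2.2.2

theorem length_wlist (N : ℕ) (l : List Col) : (wlist N l).length = N := by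
  induction l with
  | nil => simp [wlist]
  | cons C l ih => rw [wlist, length_addAt, length_addAt, length_addAt, ih]

theorem ofDigits_addAt' (X : ℕ) (w : List ℕ) (k y : ℕ) :
    Nat.ofDigits X (addAt w k y) = Nat.ofDigits X w + y * pw X w.length k := by
  unfold pw
  by_cases h : k < w.length
  · have : Nat.blt k w.length = true := by simpa using h
    rw [if_pos this, ofDigits_addAt X w k y h]
  · have : ¬ Nat.blt k w.length = true := by simpa using h
    rw [if_neg this, addAt_of_le w k y (by omega)]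
    simp

theorem ofDigits_wlist (X N : ℕ) (l : List Col) : Nat.ofDigits X (wlist N l) = wsum X N l := by
  induction l with
  | nil =>
    rw [wlist, wsum]
    induction N with
    | zero => simp
    | succ N ih => rw [List.replicate_succ, Nat.ofDigits_cons, ih]; simp
  | cons C l ih =>
    rw [wlist, ofDigits_addAt', ofDigits_addAt', ofDigits_addAt']
    simp only [length_addAt, length_wlist]
    rw [ih, wsum]
    ring

theorem sum_wlist (N : ℕ) (l : List Col) : (wlist N l).sum ≤ 3 * ysum l := by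
  induction l with
  | nil => simp [wlist, ysum]
  | cons C l ih =>
    rw [wlist, ysum]
    have h1 := sum_addAt_le (addAt (addAt (wlist N l) C.1 C.2.2.2) C.2.1 C.2.2.2) C.2.2.1 C.2.2.2
    have h2 := sum_addAt_le (addAt (wlist N l) C.1 C.2.2.2) C.2.1 C.2.2.2
    have h3 := sum_addAt_le (wlist N l) C.1 C.2.2.2
    omega

/-- weighted sum of the doses of the columns -/
noncomputable def colsum (g : ℕ → ℝ) : List Col → ℝ
  | [] => 0
  | C :: l => C.2.2.2 * ds g (C.1, C.2.1, C.2.2.1) + colsum g l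

theorem dot_wlist {N : ℕ} (hz : ∀ i, N ≤ i → g i = 0) (l : List Col) :
    dot g 0 (wlist N l) = colsum g l := by
  induction l with
  | nil =>
    rw [wlist, colsum]
    have : ∀ i, dot g i (List.replicate N 0) = 0 := by
      clear hz
      induction N with
      | zero => intro i; simp [dot]
      | succ N ih => intro i; rw [List.replicate_succ, dot, ih]; simp
    exact this 0
  | cons C l ih =>
    have hz' : ∀ k, N ≤ k → g (0 + k) = 0 := fun k hk => by rw [zero_add]; exact hz k hk
    rw [wlist, dot_addAt _ _ _ _ (by rw [length_addAt, length_addAt, length_wlist]; exact hz' _),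
      dot_addAt _ _ _ _ (by rw [length_addAt, length_wlist]; exact hz' _),
      dot_addAt _ _ _ _ (by rw [length_wlist]; exact hz' _), ih, colsum, ds]
    simp only [zero_add]
    ring

/-- all columns are lethal -/
def colsOk (n target cD : ℕ) (D L : List (ℕ × ℕ × ℕ)) : List Col → Bool
  | [] => true
  | C :: l => Nat.blt C.1 C.2.1 && (Nat.blt C.2.1 C.2.2.1 && (Nat.ble C.2.2.1 n &&
      ((Nat.ble target (cD + sz n (C.1, C.2.1, C.2.2.1) - aux n D (C.1, C.2.1, C.2.2.1)) ||
        L.any (fun R => Nat.ble C.1 R.1 && (Nat.ble C.2.1 R.2.1 && Nat.ble C.2.2.1 R.2.2))) &&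
        colsOk n target cD D L l)))

theorem colsOk_sound (hg : Antitone g) {n target cD : ℕ} {D L : List (ℕ × ℕ × ℕ)}
    (hDv : ∀ S ∈ D, Val n S) (hD : ∀ S ∈ D, ds g S < 1) (hc : cD = (UU n D).card)
    (hlt : (NL g n).card < target) (hL : ∀ S ∈ L, 1 ≤ ds g S) (l : List Col)
    (h : colsOk n target cD D L l = true) : (ysum l : ℝ) ≤ colsum g l := by
  induction l with
  | nil => simp [ysum, colsum]
  | cons C l ih =>
    simp only [colsOk, Bool.and_eq_true, Bool.or_eq_true, Nat.blt_eq, Nat.ble_eq] at h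
    obtain ⟨h1, h2, h3, h4, h5⟩ := h
    have ih' := ih h5
    have hle : 1 ≤ ds g (C.1, C.2.1, C.2.2.1) := by
      rcases h4 with h4 | h4
      · exact forced hg hDv hD hc hlt ⟨h1, h2, h3⟩ h4
      · rw [List.any_eq_true] at h4
        obtain ⟨R, hR, h6⟩ := h4
        simp only [Bool.and_eq_true, Nat.ble_eq] at h6
        have h7 := hL R hR
        have e1 := hg h6.1
        have e2 := hg h6.2.1
        have e3 := hg h6.2.2
        unfold ds at h7 ⊢
        simp only
        linarith
    rw [ysum, colsum]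
    push_cast
    have h8 : (C.2.2.2 : ℝ) * 1 ≤ C.2.2.2 * ds g (C.1, C.2.1, C.2.2.1) :=
      mul_le_mul_of_nonneg_left hle (Nat.cast_nonneg _)
    linarith

/-- evaluate a number first -/
def frc {α : Type} (x : ℕ) (f : ℕ → α) : α := Nat.rec (f 0) (fun k _ => f (k + 1)) x

theorem frc_eq {α : Type} (x : ℕ) (f : ℕ → α) : frc x f = f x := by
  cases x <;> rfl

/-- check of a leaf with total weight `Y`, denominator `Q` -/
def leafOk (n N tn td target cD : ℕ) (D L : List (ℕ × ℕ × ℕ)) (X Q : ℕ) (l : List Col) : Bool :=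
  frc (ysum l) fun Y => Nat.blt 0 Q && (Nat.blt (3 * Y) X && (Nat.ble (Q * tn) (td * Y) &&
    (colsOk n target cD D L l && frc (wsum X N l) fun W => preD X Q N 0 0 W)))

theorem leafOk_sound (hg : Antitone g) (h0 : ∀ i, 0 ≤ g i) {n N tn td target cD : ℕ}
    (hz : ∀ i, N ≤ i → g i = 0) (hT : (td : ℝ) * ∑ i ∈ range N, g i < tn)
    {D L : List (ℕ × ℕ × ℕ)}
    (hDv : ∀ S ∈ D, Val n S) (hD : ∀ S ∈ D, ds g S < 1) (hc : cD = (UU n D).card)
    (hlt : (NL g n).card < target) (hL : ∀ S ∈ L, 1 ≤ ds g S) {X Q : ℕ} {l : List Col}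
    (h : leafOk n N tn td target cD D L X Q l = true) : False := by
  unfold leafOk at h
  rw [frc_eq, frc_eq] at h
  simp only [Bool.and_eq_true, Nat.blt_eq, Nat.ble_eq] at h
  obtain ⟨h1, h2, h3, h4, h5⟩ := h
  have e1 := colsOk_sound hg hDv hD hc hlt hL l h4
  have e2 : pre Q 0 0 (wlist N l) = true := by
    rw [← preD_eq X Q (wlist N l) 0 0, ofDigits_wlist, length_wlist]
    · exact h5
    · intro x hx
      have a1 : x ≤ (wlist N l).sum := List.single_le_sum (fun _ _ => Nat.zero_le _) x hx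
      have a2 := sum_wlist N l
      omega
  have e3 := dot_le hg Q (wlist N l) 0 0 0 le_rfl h0 e2
  rw [dot_wlist hz, length_wlist] at e3
  simp only [zero_add, sub_self, zero_mul, add_zero] at e3
  have e4 : (Q : ℝ) * tn ≤ td * (ysum l : ℕ) := by exact_mod_cast h3
  have e5 : (0 : ℝ) < Q := by exact_mod_cast h1
  have e6 : (0 : ℝ) ≤ td := Nat.cast_nonneg _
  have e7 := mul_le_mul_of_nonneg_left (e1.trans e3) e6
  have e8 := mul_lt_mul_of_pos_left hT e5
  nlinarith

/-! ### certificates -/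

/-- read `k` columns from the digits of `x` -/
def dec (M : ℕ) : ℕ → ℕ → List Col
  | 0, _ => []
  | k + 1, x => (x % 128, x / 128 % 128, x / 16384 % 128, x % M / 2097152) :: dec M k (x / M)

/-- a branch and bound tree -/
inductive Cert where
  | leaf (X Q M k x : ℕ) : Cert
  | node (a b c : ℕ) (l r : Cert) : Cert

/-- the checker -/
def check (n N tn td target : ℕ) : Cert → ℕ → List (ℕ × ℕ × ℕ) → List (ℕ × ℕ × ℕ) → Bool
  | Cert.leaf X Q M k x, cD, D, L => leafOk n N tn td target cD D L X Q (dec M k x)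
  | Cert.node a b c l r, cD, D, L =>
    Nat.blt a b && (Nat.blt b c && (Nat.ble c n &&
      (check n N tn td target l cD D ((a, b, c) :: L) &&
        frc (cD + sz n (a, b, c) - aux n D (a, b, c)) fun cD' =>
          check n N tn td target r cD' ((a, b, c) :: D) L)))

theorem check_sound_aux (hg : Antitone g) (h0 : ∀ i, 0 ≤ g i) {n N tn td target : ℕ}
    (hz : ∀ i, N ≤ i → g i = 0) (hT : (td : ℝ) * ∑ i ∈ range N, g i < tn)
    (hlt : (NL g n).card < target) (c : Cert) : ∀ (cD : ℕ) (D L : List (ℕ × ℕ × ℕ)),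
    (∀ S ∈ D, Val n S) → (∀ S ∈ D, ds g S < 1) → cD = (UU n D).card →
    (∀ S ∈ L, 1 ≤ ds g S) → check n N tn td target c cD D L = true → False := by
  induction c with
  | leaf X Q M k x =>
    intro cD D L hDv hD hc hL h
    exact leafOk_sound hg h0 hz hT hDv hD hc hlt hL h
  | node a b c l r ihl ihr =>
    intro cD D L hDv hD hc hL h
    rw [check, frc_eq] at h
    simp only [Bool.and_eq_true, Nat.blt_eq, Nat.ble_eq] at h
    obtain ⟨h1, h2, h3, h4, h5⟩ := h
    have hv : Val n (a, b, c) := ⟨h1, h2, h3⟩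
    by_cases hS : 1 ≤ ds g (a, b, c)
    · refine ihl cD D ((a, b, c) :: L) hDv hD hc ?_ h4
      intro S hS'
      rcases List.mem_cons.1 hS' with rfl | hS'
      · exact hS
      · exact hL S hS'
    · push Not at hS
      refine ihr _ ((a, b, c) :: D) L ?_ ?_ (card_step hDv hc hv) hL h5
      · intro S hS'
        rcases List.mem_cons.1 hS' with rfl | hS'
        · exact hv
        · exact hDv S hS'
      · intro S hS'
        rcases List.mem_cons.1 hS' with rfl | hS'
        · exact hS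
        · exact hD S hS'

/-- Soundness of the checker. -/
theorem check_sound (hg : Antitone g) (h0 : ∀ i, 0 ≤ g i) {n N tn td target : ℕ}
    (hz : ∀ i, N ≤ i → g i = 0) (hT : (td : ℝ) * ∑ i ∈ range N, g i < tn) (c : Cert)
    (h : check n N tn td target c 0 [] [] = true) : target ≤ (NL g n).card := by
  by_contra hcon
  push Not at hcon
  exact check_sound_aux hg h0 hz hT hcon c 0 [] [] (by simp) (by simp) (by simp [UU])
    (by simp) h

end K3S
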