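import Mathlib

/-!
Sorted doses, triples of indices, and closed formulas for the number of triples dominated by a
given triple.
-/

set_option autoImplicit false

namespace K3S

open Finset

/-- triples `a < b < c < n` -/
def trip (n : ℕ) : Finset (ℕ × ℕ × ℕ) :=
  (range n ×ˢ range n ×ˢ range n).filter (fun S => S.1 < S.2.1 ∧ S.2.1 < S.2.2)

/-- nonlethal triples -/
noncomputable def NL (g : ℕ → ℝ) (n : ℕ) : Finset (ℕ × ℕ × ℕ) :=
  (trip n).filter (fun S => g S.1 + g S.2.1 + g S.2.2 < 1)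

/-- `a` choose 2 -/
def c2 (a : ℕ) : ℕ := a * (a - 1) / 2

/-- `a` choose 3 -/
def c3 (a : ℕ) : ℕ := a * (a - 1) * (a - 2) / 6

/-- triples of `trip n` which are at least `(a, b, c)` in each coordinate -/
def Dn (n a b c : ℕ) : Finset (ℕ × ℕ × ℕ) :=
  (trip n).filter (fun S => a ≤ S.1 ∧ b ≤ S.2.1 ∧ c ≤ S.2.2)

/-- the number of elements of `Dn n a b c` for `a < b < c`, `c ≤ n` -/
def size (n a b c : ℕ) : ℕ := c3 (n - a) - c3 (c - a) - (n - c) * c2 (b - a)

end K3S
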