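import Pool.Agent.Helper40.K3S.Defs
import Pool.Agent.Helper46.K3.Bridge

set_option autoImplicit false

namespace K3S

open Finset

theorem dist_c2_eq (a : ℕ) : c2 a = a.choose 2 := by
  unfold c2
  rw [Nat.choose_two_right]

theorem dist_c3_eq (a : ℕ) : c3 a = a.choose 3 := by
  unfold c3
  rcases Nat.lt_or_ge a 2 with h | h
  · interval_cases a <;> rfl
  · obtain ⟨b, rfl⟩ : ∃ b, a = b + 2 := ⟨a - 2, by omega⟩
    rw [Nat.add_sub_cancel, show b + 2 - 1 = b + 1 by omega]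
    have h1 : (b + 2).choose 3 * 6 = (b + 2) * (b + 1) * b := by
      have := Nat.descFactorial_eq_factorial_mul_choose (b + 2) 3
      simp only [Nat.descFactorial_succ, Nat.descFactorial_zero, Nat.factorial] at this
      rw [show b + 2 - 2 = b by omega, show b + 2 - 1 = b + 1 by omega, Nat.sub_zero] at this
      nlinarith [this]
    rw [← h1, Nat.mul_div_cancel _ (by norm_num)]

theorem dist1 {n m : ℕ} (hm : m ≤ n) : n.choose 3 ≤
    Set.ncard {V : Finset (Fin n) | V.card = 3 ∧ (1 : ℝ) ≤ ∑ i ∈ V,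
      (if i.val < m then (1 : ℝ) / ((1 : ℕ) : ℝ) else 0)} + size n m (m + 1) (m + 2) := by
  rw [K3.ncard_eq_cnt']
  have h1 := K3.BB_one hm
  have h2 : size n m (m + 1) (m + 2) = (n - m).choose 3 := by
    unfold size
    rw [dist_c3_eq, dist_c3_eq, dist_c2_eq, show m + 2 - m = 2 by omega, show m + 1 - m = 1 by omega]
    simp
  have h3 : K3.BB 1 n m = n.choose 3 - (n - m).choose 3 := rfl
  rw [h2]
  omega

theorem dist2 {n m : ℕ} (hm : m ≤ n) : n.choose 3 ≤
    Set.ncard {V : Finset (Fin n) | V.card = 3 ∧ (1 : ℝ) ≤ ∑ i ∈ V,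
      (if i.val < m then (1 : ℝ) / ((2 : ℕ) : ℝ) else 0)} + size n 0 m (m + 1) := by
  rw [K3.ncard_eq_cnt']
  have h1 := K3.BB_two hm
  have h3 : K3.BB 2 n m = m.choose 2 * (n - m) + m.choose 3 := rfl
  have h4 : (m + 1).choose 3 = m.choose 2 + m.choose 3 := Nat.choose_succ_succ' m 2
  unfold size
  rw [dist_c3_eq, dist_c3_eq, dist_c2_eq, Nat.sub_zero, Nat.sub_zero, Nat.sub_zero]
  rcases Nat.eq_or_lt_of_le hm with rfl | hlt
  · rw [Nat.sub_self, mul_zero, zero_add] at h3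
    omega
  · obtain ⟨d, rfl⟩ := Nat.exists_eq_add_of_lt hlt
    rw [show m + d + 1 - (m + 1) = d by omega]
    rw [show m + d + 1 - m = d + 1 by omega] at h3
    have h5 : m.choose 2 * (d + 1) = d * m.choose 2 + m.choose 2 := by ring
    omega

theorem dist3 {n m : ℕ} (hm : m ≤ n) : n.choose 3 ≤
    Set.ncard {V : Finset (Fin n) | V.card = 3 ∧ (1 : ℝ) ≤ ∑ i ∈ V,
      (if i.val < m then (1 : ℝ) / ((3 : ℕ) : ℝ) else 0)} + size n 0 1 m := by
  rw [K3.ncard_eq_cnt']
  have h1 := K3.BB_three hm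
  have h3 : K3.BB 3 n m = m.choose 3 := rfl
  have h2 : size n 0 1 m = n.choose 3 - m.choose 3 := by
    unfold size
    rw [dist_c3_eq, dist_c3_eq, dist_c2_eq, Nat.sub_zero, Nat.sub_zero, Nat.sub_zero]
    simp
  rw [h2]
  omega

end K3S
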