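import Pool.Agent.Helper40.K3S.Slope

/-!
The number of triples, and monotonicity in the number of zero doses.
-/

set_option autoImplicit false

namespace K3S

open Finset

theorem card_trip_eq (n : ℕ) : (trip n).card = c3 n := by
  classical
  induction n with
  | zero => simp [trip, c3]
  | succ n ih =>
    rw [sl_c3_succ, ← ih]
    set f : ℕ × ℕ → ℕ × ℕ × ℕ := fun p => (p.1, p.2, n) with hf
    set X : Finset (ℕ × ℕ) := (range n ×ˢ range n).filter (fun p => p.1 < p.2) with hX
    have hfi : Set.InjOn f X := by
      intro p _ q _ h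
      obtain ⟨p1, p2⟩ := p
      obtain ⟨q1, q2⟩ := q
      simp only [hf, Prod.mk.injEq] at h
      obtain ⟨h1, h2, _⟩ := h
      subst h1 h2
      rfl
    have hcX : X.card = c2 n := by
      have h1 : X.card = ∑ b ∈ range n, b := by
        have h2 : X = (range n).biUnion (fun b => (range b).image (fun a => (a, b))) := by
          ext ⟨a, b⟩
          simp only [hX, mem_filter, mem_product, mem_range, mem_biUnion, mem_image,
            Prod.mk.injEq]
          constructor
          · rintro ⟨⟨_, h3⟩, h4⟩
            exact ⟨b, h3, a, h4, rfl, rfl⟩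
          · rintro ⟨b', h3, a', h4, rfl, rfl⟩
            exact ⟨⟨by omega, h3⟩, h4⟩
        rw [h2, card_biUnion]
        · apply sum_congr rfl
          intro b _
          rw [card_image_of_injective _ (fun a a' h => by simpa using h), card_range]
        · intro b _ b' _ hbb
          rw [Function.onFun, Finset.disjoint_left]
          intro p hp hp'
          rw [mem_image] at hp hp'
          obtain ⟨_, _, rfl⟩ := hp
          obtain ⟨_, _, h3⟩ := hp'
          rw [Prod.mk.injEq] at h3
          exact hbb h3.2.symm
      rw [h1, sum_range_id, c2]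
    have hU : trip (n + 1) = trip n ∪ X.image f := by
      ext ⟨a, b, c⟩
      simp only [trip, hX, hf, mem_union, mem_filter, mem_product, mem_range, mem_image,
        Prod.mk.injEq, Prod.exists]
      constructor
      · rintro ⟨⟨h1, h2, h3⟩, h4, h5⟩
        rcases Nat.lt_or_ge c n with h6 | h6
        · left
          exact ⟨⟨by omega, by omega, h6⟩, h4, h5⟩
        · right
          exact ⟨a, b, ⟨⟨by omega, by omega⟩, h4⟩, rfl, rfl, by omega⟩
      · rintro (⟨⟨h1, h2, h3⟩, h4, h5⟩ | ⟨a', b', ⟨⟨h1, h2⟩, h3⟩, rfl, rfl, rfl⟩)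
        · exact ⟨⟨by omega, by omega, by omega⟩, h4, h5⟩
        · exact ⟨⟨by omega, by omega, by omega⟩, h3, h2⟩
    have hdis : Disjoint (trip n) (X.image f) := by
      rw [Finset.disjoint_left]
      intro S hS hS2
      rw [mem_image] at hS2
      obtain ⟨p, _, rfl⟩ := hS2
      simp only [trip, mem_filter, mem_product, mem_range, hf] at hS
      omega
    rw [hU, card_union_of_disjoint hdis, card_image_of_injOn hfi, hcX]

theorem trip_mono {n n' : ℕ} (h : n ≤ n') : trip n ⊆ trip n' := by
  intro S hS
  simp only [trip, mem_filter, mem_product, mem_range] at hS ⊢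
  obtain ⟨⟨h1, h2, h3⟩, h4⟩ := hS
  exact ⟨⟨by omega, by omega, by omega⟩, h4⟩

/-- The number of lethal triples does not decrease when elements are added. -/
theorem NL_mono_c3 {n n' : ℕ} (h : n ≤ n') (g : ℕ → ℝ) :
    (NL g n').card + c3 n ≤ (NL g n).card + c3 n' := by
  classical
  rw [← card_trip_eq, ← card_trip_eq]
  have h1 := card_filter_add_card_filter_not (s := trip n)
    (fun S => g S.1 + g S.2.1 + g S.2.2 < 1)
  have h2 := card_filter_add_card_filter_not (s := trip n')
    (fun S => g S.1 + g S.2.1 + g S.2.2 < 1)
  have h3 : ((trip n).filter (fun S => ¬ (g S.1 + g S.2.1 + g S.2.2 < 1))).card ≤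
      ((trip n').filter (fun S => ¬ (g S.1 + g S.2.1 + g S.2.2 < 1))).card :=
    card_le_card (filter_subset_filter _ (trip_mono h))
  unfold NL
  omega

end K3S
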