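import Pool.Agent.Helper40.K3S.Defs
import Pool.Agent.Helper46.K3.Bridge

set_option autoImplicit false

namespace K3S

open Finset

theorem tri_eq (g : ℕ → ℝ) (n : ℕ) :
    K3.tri 1 g n = (trip n).filter (fun S => ¬ (g S.1 + g S.2.1 + g S.2.2 < 1)) := by
  ext ⟨a, b, d⟩
  simp only [K3.tri, trip, mem_filter, mem_product, mem_range, not_lt]
  tauto

theorem card_trip (n : ℕ) : (trip n).card = n.choose 3 := by
  have h1 := K3.cnt_three 0 (fun _ => (0 : ℝ)) n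
  rw [K3.cnt_of_nonpos le_rfl 3 _ _ (fun _ _ => le_rfl), card_range] at h1
  rw [h1]
  congr 1
  ext ⟨a, b, d⟩
  simp [K3.tri, trip]

theorem tri_add_NL (g : ℕ → ℝ) (n : ℕ) : (K3.tri 1 g n).card + (NL g n).card = n.choose 3 := by
  rw [tri_eq, NL, ← card_trip, add_comm]
  exact card_filter_add_card_filter_not _

/-- repeated reduction, with control of the total -/
theorem reduce_many' {ι : Type*} [DecidableEq ι] (N k : ℕ) : ∀ (m : ℕ) (h : ι → ℝ)
    (S : Finset ι), S.card = N + k →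
    (∀ i ∈ S, 0 ≤ h i) → 3 * ∑ i ∈ S, h i < (N : ℝ) + 1 →
    ∃ (h' : ι → ℝ) (S' : Finset ι), S'.card = N ∧ (∀ i ∈ S', 0 ≤ h' i) ∧
      ∑ i ∈ S', h' i ≤ ∑ i ∈ S, h i ∧ K3.Lam h S m ≤ K3.Lam h' S' ((m : ℝ) + k) := by
  induction k with
  | zero =>
    intro m h S hc h0 hs
    exact ⟨h, S, by simpa using hc, h0, le_rfl, by simp⟩
  | succ k ih =>
    intro m h S hc h0 hs
    have hlt : 3 * ∑ i ∈ S, h i < (S.card : ℝ) := by
      rw [hc]; push_cast
      have : (0 : ℝ) ≤ k := Nat.cast_nonneg k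
      linarith
    obtain ⟨h1, z, hz, h10, h1s, h1L⟩ := K3.reduce h S h0 hlt
    obtain ⟨h2, S2, hS2, h20, h2s, h2L⟩ := ih (m + 1) h1 (S.erase z)
      (by rw [card_erase_of_mem hz, hc]; omega) h10 (by linarith)
    refine ⟨h2, S2, hS2, h20, h2s.trans h1s, ?_⟩
    have e1 := h1L m (Nat.cast_nonneg m) (by rw [← K3.C2_nat]; exact Nat.cast_nonneg _)
    push_cast at h2L ⊢
    refine e1.trans (h2L.trans (le_of_eq ?_))
    congr 1
    ring

theorem Lam_range (g : ℕ → ℝ) (N : ℕ) (hz : ∀ i, N ≤ i → g i = 0) (k : ℕ) :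
    K3.Lam g (range N) k = K3.Lam g (range (N + k)) 0 := by
  have key : ∀ (k : ℕ) (t : ℝ), K3.Lam g (range (N + k)) t = K3.Lam g (range N) (t + k) := by
    intro k
    induction k with
    | zero => intro t; simp
    | succ k ih =>
      intro t
      rw [← add_assoc, range_add_one, K3.Lam_insert_zero g (by simp) (hz _ (by omega)), ih]
      congr 1
      push_cast
      ring
  rw [key, zero_add]

/-- row R1 -/
theorem exists_sorted {n N : ℕ} (hn : N < n) (x : Fin n → ℝ) (hx : ∀ i, 0 ≤ x i)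
    (hs : 3 * ∑ i, x i < N + 1) :
    ∃ g : ℕ → ℝ, Antitone g ∧ (∀ i, 0 ≤ g i) ∧ (∀ i, N ≤ i → g i = 0) ∧
      ∑ i ∈ range N, g i ≤ ∑ i, x i ∧
      Set.ncard {V : Finset (Fin n) | V.card = 3 ∧ (1 : ℝ) ≤ ∑ i ∈ V, x i} + (NL g n).card ≤
        n.choose 3 := by
  obtain ⟨k, rfl⟩ := Nat.exists_eq_add_of_lt hn
  obtain ⟨h1, S1, hS1, h10, h1s, h1L⟩ := reduce_many' N (k + 1) 0 x univ
    (by rw [card_univ, Fintype.card_fin]; rfl) (fun i _ => hx i) hs
  obtain ⟨g, g1, g2, g3, g4, g5⟩ := K3.sorted_Lam N h1 S1 hS1 h10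
  refine ⟨g, g3, g4, g5, g2.trans_le h1s, ?_⟩
  rw [K3.ncard_eq_cnt']
  have hL0 : K3.Lam x univ ((0 : ℕ) : ℝ) = K3.cnt 1 3 x univ := by
    unfold K3.Lam K3.C2
    simp
  have hL1 : K3.Lam g (range (N + (k + 1))) 0 = (K3.tri 1 g (N + k + 1)).card := by
    rw [← K3.cnt_three]
    unfold K3.Lam K3.C2
    simp [add_assoc]
  rw [hL0, g1] at h1L
  simp only [Nat.cast_zero, zero_add] at h1L
  rw [Lam_range g N g5 (k + 1), hL1] at h1L
  have h2 : K3.cnt 1 3 x univ ≤ (K3.tri 1 g (N + k + 1)).card := by exact_mod_cast h1L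
  have h3 := tri_add_NL g (N + k + 1)
  omega

end K3S
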