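import Pool.Agent.Helper40.K3S.Defs

/-!
Beyond the crossing: adding a zero dose adds at least `c2 (n - s)` nonlethal triples.
-/

set_option autoImplicit false

namespace K3S

open Finset

theorem sl_c2 (a : ℕ) : c2 a = a.choose 2 := (Nat.choose_two_right a).symm

theorem sl_c3 (a : ℕ) : c3 a = a.choose 3 := by
  unfold c3
  rw [Nat.choose_eq_descFactorial_div_factorial]
  have h1 : a.descFactorial 3 = a * (a - 1) * (a - 2) := by
    simp only [Nat.descFactorial]
    ring_nf
    simp [mul_comm]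
  have h2 : Nat.factorial 3 = 6 := rfl
  rw [h1, h2]

theorem sl_c3_succ (a : ℕ) : c3 (a + 1) = c3 a + c2 a := by
  rw [sl_c3, sl_c3, sl_c2, show (3 : ℕ) = 2 + 1 from rfl, Nat.choose_succ_succ a 2]
  exact Nat.add_comm _ _

/-- the size used for `j = 1` -/
theorem sl_size (n s : ℕ) : size n s (s + 1) (s + 2) = c3 (n - s) := by
  unfold size
  have h1 : s + 2 - s = 2 := by omega
  have h2 : s + 1 - s = 1 := by omega
  rw [h1, h2]
  have h3 : c3 2 = 0 := rfl
  have h4 : c2 1 = 0 := rfl
  rw [h3, h4]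
  simp

theorem sl_sum (e d : ℕ) : 2 * ∑ k ∈ range d, (e + k) + e * (e - 1) = (e + d) * (e + d - 1) := by
  induction d with
  | zero => simp
  | succ d ih =>
    rw [sum_range_succ, mul_add]
    have h1 : 2 * ∑ k ∈ range d, (e + k) + 2 * (e + d) + e * (e - 1) =
        (2 * ∑ k ∈ range d, (e + k) + e * (e - 1)) + 2 * (e + d) := by ring
    rw [h1, ih]
    rcases Nat.eq_zero_or_pos (e + d) with h | h
    · have h2 : e + (d + 1) = 1 := by omega
      rw [h2, h]
    · obtain ⟨m, hm⟩ : ∃ m, e + d = m + 1 := ⟨e + d - 1, by omega⟩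
      have h2 : e + (d + 1) = m + 2 := by omega
      rw [h2, hm]
      simp only [Nat.add_sub_cancel]
      have h3 : m + 2 - 1 = m + 1 := by omega
      rw [h3]
      ring

/-- If `(i, l)` is a nonlethal pair then the new nonlethal triples are numerous. -/
theorem sl_new {n i l : ℕ} (hil : i < l) (hln : l ≤ n) (g : ℕ → ℝ) (hg : Antitone g)
    (hz : g n = 0) (hp : g i + g l < 1) :
    (NL g n).card + ∑ k ∈ range (n - l), (l - i + k) ≤ (NL g (n + 1)).card := by
  classical
  set X : Finset (Σ _ : ℕ, ℕ) := (range (n - l)).sigma (fun k => range (l - i + k)) with hX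
  have hcX : X.card = ∑ k ∈ range (n - l), (l - i + k) := by
    rw [hX, card_sigma]
    simp
  set f : (Σ _ : ℕ, ℕ) → ℕ × ℕ × ℕ := fun p => (i + p.2, l + p.1, n) with hf
  have hfi : Set.InjOn f X := by
    intro p _ q _ h
    obtain ⟨p1, p2⟩ := p
    obtain ⟨q1, q2⟩ := q
    simp only [hf, Prod.mk.injEq] at h
    obtain ⟨h1, h2, _⟩ := h
    have e1 : p1 = q1 := by omega
    have e2 : p2 = q2 := by omega
    subst e1 e2
    rfl
  have hcf : (X.image f).card = ∑ k ∈ range (n - l), (l - i + k) := by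
    rw [card_image_of_injOn hfi, hcX]
  have hdis : Disjoint (NL g n) (X.image f) := by
    rw [Finset.disjoint_left]
    intro S hS hS2
    rw [mem_image] at hS2
    obtain ⟨p, _, rfl⟩ := hS2
    simp only [NL, trip, mem_filter, mem_product, mem_range, hf] at hS
    omega
  rw [← hcf, ← card_union_of_disjoint hdis]
  apply card_le_card
  intro S hS
  rw [mem_union] at hS
  rcases hS with hS | hS
  · simp only [NL, trip, mem_filter, mem_product, mem_range] at hS ⊢
    obtain ⟨⟨⟨h1, h2, h3⟩, h4⟩, h5⟩ := hS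
    exact ⟨⟨⟨by omega, by omega, by omega⟩, h4⟩, h5⟩
  · rw [mem_image] at hS
    obtain ⟨⟨p1, p2⟩, hpX, rfl⟩ := hS
    rw [hX, mem_sigma] at hpX
    simp only [mem_range] at hpX
    obtain ⟨h1, h2⟩ := hpX
    simp only [NL, trip, mem_filter, mem_product, mem_range, hf]
    refine ⟨⟨⟨by omega, by omega, by omega⟩, by omega, by omega⟩, ?_⟩
    have e1 : g (i + p2) ≤ g i := hg (by omega)
    have e2 : g (l + p1) ≤ g l := hg (by omega)
    linarith

/-- New triples `(a, b, n)` are lethal only if `(a, b)` is, and at least `c2 (n - s)` pairs are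
nonlethal: `(s, s + 1)` or some `(i, 2 s + 1 - i)`, `i < s`, is nonlethal. -/
theorem slope {s n : ℕ} (hs : 1 ≤ s) (hn : 3 * s + 1 ≤ n) (g : ℕ → ℝ) (hg : Antitone g)
    (h0 : ∀ i, 0 ≤ g i) (hz : g n = 0) (hsum : ∑ i ∈ range n, g i < s + 1)
    (hA : size n s (s + 1) (s + 2) ≤ (NL g n).card) :
    size (n + 1) s (s + 1) (s + 2) ≤ (NL g (n + 1)).card := by
  rw [sl_size] at hA ⊢
  have hns : n + 1 - s = (n - s) + 1 := by omega
  rw [hns, sl_c3_succ]
  obtain ⟨i, hi, hp⟩ : ∃ i, i ≤ s ∧ g i + g (2 * s + 1 - i) < 1 := by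
    by_contra hcon
    push Not at hcon
    have h1 : ∑ i ∈ range (s + 1), (g i + g (2 * s + 1 - i)) ≤ ∑ i ∈ range n, g i := by
      rw [sum_add_distrib]
      have h2 : ∑ i ∈ range (s + 1), g (2 * s + 1 - i) = ∑ i ∈ Ico (s + 1) (2 * s + 2), g i := by
        rw [sum_Ico_eq_sum_range]
        have h3 : 2 * s + 2 - (s + 1) = s + 1 := by omega
        rw [h3, ← sum_range_reflect (fun i => g (s + 1 + i)) (s + 1)]
        apply sum_congr rfl
        intro j hj
        rw [mem_range] at hj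
        congr 1
        omega
      rw [h2, range_eq_Ico, sum_Ico_consecutive g (by omega) (by omega), ← range_eq_Ico]
      exact sum_le_sum_of_subset_of_nonneg (range_mono (by omega)) (fun j _ _ => h0 j)
    have h2 : ∑ i ∈ range (s + 1), (1 : ℝ) ≤ ∑ i ∈ range (s + 1), (g i + g (2 * s + 1 - i)) :=
      sum_le_sum (fun j hj => hcon j (by rw [mem_range] at hj; omega))
    rw [sum_const, card_range, nsmul_eq_mul, mul_one] at h2
    push_cast at h2
    linarith
  have hnew := sl_new (n := n) (i := i) (l := 2 * s + 1 - i) (by omega) (by omega) g hg hz hp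
  have hsum2 := sl_sum (2 * s + 1 - i - i) (n - (2 * s + 1 - i))
  set W := ∑ k ∈ range (n - (2 * s + 1 - i)), (2 * s + 1 - i - i + k) with hW
  have hc2 : 2 * c2 (n - s) = (n - s) * (n - s - 1) := by
    rw [sl_c2, Nat.choose_two_right]
    exact Nat.mul_div_cancel' (Nat.even_mul_pred_self _).two_dvd
  obtain ⟨j, hj⟩ : ∃ j, s = i + j := ⟨s - i, by omega⟩
  obtain ⟨m, hm⟩ : ∃ m, n = 3 * s + 1 + m := ⟨n - (3 * s + 1), by omega⟩
  have e1 : 2 * s + 1 - i - i = 2 * j + 1 := by omega
  have e2 : 2 * j + 1 + (n - (2 * s + 1 - i)) = 2 * s + j + m + 1 := by omega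
  have e3 : n - s = 2 * s + m + 1 := by omega
  rw [e1, e2] at hsum2
  rw [e3] at hc2
  simp only [Nat.add_sub_cancel] at hsum2 hc2
  have hjs : j ≤ s := by omega
  have key : (2 * s + m + 1) * (2 * s + m) + (2 * j + 1) * (2 * j) ≤
      (2 * s + j + m + 1) * (2 * s + j + m) := by
    nlinarith [Nat.mul_le_mul_left j hjs, Nat.mul_le_mul_left j hs]
  rw [e3] at hA ⊢
  omega

end K3S
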