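import Pool.Agent.Helper40.K3S.Core
import Pool.Agent.Helper40.K3S.Slope

/-!
From certificates for finitely many `n` to all `n`.
-/

set_option autoImplicit false

namespace K3S

open Finset

/-! ### monotonicity -/

theorem trip_succ (n : ℕ) : trip (n + 1) = trip n ∪ (Pn n 0 0).image (fun P => (P.1, P.2, n)) := by
  ext ⟨i, j, k⟩
  simp only [mem_trip, mem_union, mem_image, mem_Pn, Prod.mk.injEq]
  constructor
  · rintro ⟨h1, h2, h3⟩
    by_cases hk : k < n
    · exact Or.inl ⟨h1, h2, hk⟩
    · exact Or.inr ⟨(i, j), ⟨h1, by omega, Nat.zero_le _, Nat.zero_le _⟩, rfl, rfl, by omega⟩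
  · rintro (⟨h1, h2, h3⟩ | ⟨⟨i', j'⟩, ⟨h1, h2, _, _⟩, rfl, rfl, rfl⟩)
    · exact ⟨h1, h2, by omega⟩
    · exact ⟨h1, h2, by omega⟩

theorem card_Pn_le (n : ℕ) : (Pn n 0 0).card ≤ c2 n := by
  induction n with
  | zero =>
    have : Pn 0 0 0 = ∅ := by
      ext P
      simp only [mem_Pn, notMem_empty, iff_false]
      omega
    rw [this]
    simp
  | succ n ih =>
    have h1 : Pn (n + 1) 0 0 ⊆ Pn n 0 0 ∪ (range n).image (fun i => (i, n)) := by
      rintro ⟨i, j⟩ h
      simp only [mem_Pn, mem_union, mem_image, mem_range, Prod.mk.injEq] at h ⊢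
      by_cases hj : j < n
      · exact Or.inl ⟨h.1, hj, h.2.2⟩
      · exact Or.inr ⟨i, by omega, rfl, by omega⟩
    have h2 := (card_le_card h1).trans (card_union_le _ _)
    have h3 : ((range n).image (fun i => (i, n))).card ≤ n := by
      have := card_image_le (s := range n) (f := fun i => (i, n))
      simpa using this
    rw [c2_succ]
    omega

theorem NL_succ_le (g : ℕ → ℝ) (n : ℕ) : (NL g (n + 1)).card ≤ (NL g n).card + c2 n := by
  have h1 : NL g (n + 1) ⊆ NL g n ∪ (Pn n 0 0).image (fun P => (P.1, P.2, n)) := by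
    intro S hS
    unfold NL at hS ⊢
    rw [mem_filter, trip_succ, mem_union] at hS
    rw [mem_union, mem_filter]
    rcases hS.1 with h | h
    · exact Or.inl ⟨h, hS.2⟩
    · exact Or.inr h
  have h2 := (card_le_card h1).trans (card_union_le _ _)
  have h3 := card_image_le (s := Pn n 0 0) (f := fun P : ℕ × ℕ => (P.1, P.2, n))
  have h4 := card_Pn_le n
  omega

theorem NL_mono (g : ℕ → ℝ) {n n' : ℕ} (h : n ≤ n') :
    (NL g n').card + c3 n ≤ (NL g n).card + c3 n' := by
  induction n', h using Nat.le_induction with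
  | base => exact le_rfl
  | succ m hm ih =>
    have h1 := NL_succ_le g m
    rw [c3_succ]
    omega

/-! ### rows -/

/-- the target: the least of the three numbers of nonlethal triples -/
def tgt (n N s m : ℕ) : ℕ :=
  min (size n s (s + 1) (s + 2)) (min (size n 0 m (m + 1)) (size n 0 1 N))

/-- the conclusion for one type -/
def PT (N tn td m : ℕ) : Prop :=
  ∀ g : ℕ → ℝ, Antitone g → (∀ i, 0 ≤ g i) → (∀ i, N ≤ i → g i = 0) →
    (td : ℝ) * ∑ i ∈ range N, g i < tn → ∀ n, N < n → tgt n N (N / 3) m ≤ (NL g n).card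

/-- a row: certificates for `n = N + t₀, N + t₀ + 1, ...` -/
structure Row where
  N : ℕ
  tn : ℕ
  td : ℕ
  m : ℕ
  t₀ : ℕ
  cs : List Cert

/-- check certificates for `n`, `n + 1`, ...; the last one must be beyond the crossing -/
def csOk (N tn td m : ℕ) : ℕ → List Cert → Bool
  | _, [] => false
  | n, [c] => frc (tgt n N (N / 3) m) fun T => check n N tn td T c 0 [] [] &&
      Nat.beq T (size n (N / 3) (N / 3 + 1) (N / 3 + 2))
  | n, c :: c' :: cs => frc (tgt n N (N / 3) m) fun T => check n N tn td T c 0 [] [] &&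
      csOk N tn td m (n + 1) (c' :: cs)

/-- check of a row -/
def rowOk (r : Row) : Bool :=
  Nat.ble 3 r.N && (Nat.ble 1 r.t₀ && (Nat.ble 1 r.td &&
    (Nat.ble r.tn (r.td * (r.N / 3 + 1)) &&
      ((Nat.beq r.t₀ 1 || Nat.beq (tgt (r.N + r.t₀) r.N (r.N / 3) r.m) (size (r.N + r.t₀) 0 1 r.N)) &&
        csOk r.N r.tn r.td r.m (r.N + r.t₀) r.cs))))

theorem csOk_sound {g : ℕ → ℝ} (hg : Antitone g) (h0 : ∀ i, 0 ≤ g i) {N tn td m : ℕ}
    (h3 : 3 ≤ N) (htd : 1 ≤ td) (htn : tn ≤ td * (N / 3 + 1))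
    (hz : ∀ i, N ≤ i → g i = 0) (hT : (td : ℝ) * ∑ i ∈ range N, g i < tn) (cs : List Cert) :
    ∀ n, N < n → csOk N tn td m n cs = true → ∀ n', n ≤ n' →
      tgt n' N (N / 3) m ≤ (NL g n').card := by
  induction cs with
  | nil => intro n _ h; simp [csOk] at h
  | cons c cs ih =>
    intro n hn h n' hn'
    rcases cs with _ | ⟨c', cs⟩
    · simp only [csOk, frc_eq, Bool.and_eq_true, Nat.beq_eq] at h
      have h1 := check_sound hg h0 hz hT c h.1
      rw [h.2] at h1
      have hsum : ∀ k, N ≤ k → ∑ i ∈ range k, g i < ((N / 3 : ℕ) : ℝ) + 1 := by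
        intro k hk
        have e1 : ∑ i ∈ range k, g i = ∑ i ∈ range N, g i := by
          symm
          apply sum_subset (range_subset_range.2 hk)
          intro i _ hi
          exact hz i (by simpa using hi)
        rw [e1]
        have e2 : (tn : ℝ) ≤ td * (((N / 3 : ℕ) : ℝ) + 1) := by exact_mod_cast htn
        have e3 : (0 : ℝ) < td := by exact_mod_cast htd
        exact lt_of_mul_lt_mul_left (lt_of_lt_of_le hT e2) e3.le
      have h2 : ∀ k, n ≤ k → size k (N / 3) (N / 3 + 1) (N / 3 + 2) ≤ (NL g k).card := by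
        intro k hk
        induction k, hk using Nat.le_induction with
        | base => exact h1
        | succ k hk ih2 =>
          exact slope (by omega) (by omega) g hg h0 (hz k (by omega)) (hsum k (by omega)) ih2
      exact (min_le_left _ _).trans (h2 n' hn')
    · simp only [csOk, frc_eq, Bool.and_eq_true] at h
      rcases Nat.eq_or_lt_of_le hn' with rfl | hlt
      · exact check_sound hg h0 hz hT c h.1
      · exact ih (n + 1) (by omega) h.2 n' hlt

theorem rowOk_sound (r : Row) (h : rowOk r = true) : PT r.N r.tn r.td r.m := by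
  intro g hg h0 hz hT n hn
  simp only [rowOk, Bool.and_eq_true, Bool.or_eq_true, Nat.ble_eq, Nat.beq_eq] at h
  obtain ⟨h3, ht0, htd, htn, h1, h2⟩ := h
  have h4 := csOk_sound hg h0 h3 htd htn hz hT r.cs (r.N + r.t₀) (by omega) h2
  by_cases hlt : n < r.N + r.t₀
  · rcases h1 with h1 | h1
    · omega
    · have h5 := h4 (r.N + r.t₀) le_rfl
      rw [h1] at h5
      have h6 := NL_mono g hlt.le
      have h7 : size n 0 1 r.N ≤ (NL g n).card := by
        unfold size at h5 ⊢
        simp only [Nat.sub_zero] at h5 ⊢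
        have e1 : c2 1 = 0 := rfl
        rw [e1, Nat.mul_zero] at h5 ⊢
        have e2 := c3_mono hn.le
        have e3 := c3_mono (show r.N ≤ r.N + r.t₀ by omega)
        omega
      exact ((min_le_right _ _).trans (min_le_right _ _)).trans h7
  · exact h4 n (by omega)

/-- the types of totals -/
def ty (N : ℕ) : List (ℕ × ℕ × ℕ) :=
  if N % 3 = 0 then [(N + 1, 3, 2 * (N / 3))]
  else if N % 3 = 2 then [(N / 3 + 1, 1, 2 * (N / 3) + 1)]
  else [(2 * (N / 3) + 1, 2, 2 * (N / 3)), (N + 1, 3, 2 * (N / 3) + 1)]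

/-- all types of `N` occur among the rows -/
def covers (rs : List Row) (N : ℕ) : Bool :=
  (ty N).all fun T => rs.any fun r =>
    Nat.beq r.N N && (Nat.beq r.tn T.1 && (Nat.beq r.td T.2.1 && Nat.beq r.m T.2.2))

theorem of_covers {rs : List Row} (hr : rs.all rowOk = true) {N : ℕ}
    (hc : covers rs N = true) {tn td m : ℕ} (hty : (tn, td, m) ∈ ty N) : PT N tn td m := by
  unfold covers at hc
  rw [List.all_eq_true] at hc
  have h1 := hc _ hty
  rw [List.any_eq_true] at h1
  obtain ⟨r, hr1, h2⟩ := h1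
  simp only [Bool.and_eq_true, Nat.beq_eq] at h2
  obtain ⟨e1, e2, e3, e4⟩ := h2
  rw [List.all_eq_true] at hr
  have h3 := rowOk_sound r (hr r hr1)
  rw [e1, e2, e3, e4] at h3
  exact h3

/-- a block of rows -/
def block (rs : List Row) (a k : ℕ) : Bool :=
  rs.all rowOk && (List.range' a k).all (covers rs)

theorem of_block {rs : List Row} {a k : ℕ} (h : block rs a k = true) {N : ℕ} (h1 : a ≤ N)
    (h2 : N < a + k) {tn td m : ℕ} (hty : (tn, td, m) ∈ ty N) : PT N tn td m := by
  simp only [block, Bool.and_eq_true] at h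
  refine of_covers h.1 ?_ hty
  have h3 := h.2
  rw [List.all_eq_true] at h3
  apply h3
  rw [List.mem_range']
  exact ⟨N - a, by omega, by omega⟩

end K3S
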