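import Pool.Agent.Helper40.K3S.Cert1
import Pool.Agent.Helper40.K3S.Cert2
import Pool.Agent.Helper40.K3S.Cert3
import Pool.Agent.Helper40.K3S.Cert4
import Pool.Agent.Helper40.K3S.Cert5
import Pool.Agent.Helper40.K3S.Cert6
import Pool.Agent.Helper40.K3S.Cert7
import Pool.Agent.Helper40.K3S.Cert8
import Pool.Agent.Helper40.K3S.Cert9
import Pool.Agent.Helper40.K3S.Cert10
import Pool.Agent.Helper40.K3S.Cert11
import Pool.Agent.Helper40.K3S.Cert12

/-!
All totals `h` with `3 ≤ ⌊3 h⌋ ≤ 86`.
-/

set_option autoImplicit false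

namespace K3S

open Finset

theorem all_rows {N : ℕ} (h3 : 3 ≤ N) (h86 : N ≤ 86) {tn td m : ℕ} (hty : (tn, td, m) ∈ ty N) :
    PT N tn td m := by
  by_cases h101 : N < 21
  · exact of_block rows1_ok (by omega) h101 hty
  by_cases h102 : N < 31
  · exact of_block rows2_ok (by omega) h102 hty
  by_cases h103 : N < 39
  · exact of_block rows3_ok (by omega) h103 hty
  by_cases h104 : N < 46
  · exact of_block rows4_ok (by omega) h104 hty
  by_cases h105 : N < 52
  · exact of_block rows5_ok (by omega) h105 hty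
  by_cases h106 : N < 58
  · exact of_block rows6_ok (by omega) h106 hty
  by_cases h107 : N < 63
  · exact of_block rows7_ok (by omega) h107 hty
  by_cases h108 : N < 68
  · exact of_block rows8_ok (by omega) h108 hty
  by_cases h109 : N < 73
  · exact of_block rows9_ok (by omega) h109 hty
  by_cases h110 : N < 78
  · exact of_block rows10_ok (by omega) h110 hty
  by_cases h111 : N < 83
  · exact of_block rows11_ok (by omega) h111 hty
  exact of_block rows12_ok (by omega) (by omega) hty

/-- The small cases. -/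
theorem small {N n : ℕ} (h3 : 3 ≤ N) (h86 : N ≤ 86) (hn : N < n) {tn td m2 : ℕ}
    (hty : (tn, td, m2) ∈ ty N) (g : ℕ → ℝ) (hg : Antitone g) (h0 : ∀ i, 0 ≤ g i)
    (hz : ∀ i, N ≤ i → g i = 0) (hT : (td : ℝ) * ∑ i ∈ range N, g i < tn) :
    min (size n (N / 3) (N / 3 + 1) (N / 3 + 2)) (min (size n 0 m2 (m2 + 1)) (size n 0 1 N)) ≤
      (NL g n).card :=
  all_rows h3 h86 hty g hg h0 hz hT n hn

end K3S
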